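import Mathlib
import Pool.Agent.H82.LuzD

set_option autoImplicit false

namespace Pool.Agent.Results.MP_c26d8e_gt.CHCounter

theorem result : Cardinal.continuum.{0} = Cardinal.aleph 1 →
    ∃ (X : Type) (_ : TopologicalSpace X), T35Space X ∧
      (∀ n : ℕ, HereditarilyLindelofSpace (Fin n → X)) ∧
      ¬ ∃ Z : Set (X → ℝ), {f : X → ℝ | Continuous f} ⊆ Z ∧ IsLindelof Z :=
  Pool.Agent.H82.Luz.no_lindelof

end Pool.Agent.Results.MP_c26d8e_gt.CHCounter
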